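import Pool.Agent.N549.HG.Stm

/-!
# The Euclidean ball in the torus and its Fourier coefficients
-/

set_option autoImplicit false

namespace Pool.Agent.N457.HG.Torus

open MeasureTheory Set Finset
open scoped ENNReal NNReal
open Pool.Agent.N549.HG

/-- The projection from the Euclidean space to the torus. -/
def P (n : ℕ) (x : Fin n → ℝ) : Torus n := fun i => (x i : UnitAddCircle)

/-- The fundamental domain. -/
def Q (n : ℕ) : Set (Fin n → ℝ) := Set.univ.pi fun _ => Ioc (-(1 / 2) : ℝ) (1 / 2)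

lemma mp_one : MeasurePreserving (fun x : ℝ => (x : UnitAddCircle))
    ((volume : Measure ℝ).restrict (Ioc (-(1 / 2) : ℝ) (1 / 2)))
    (AddCircle.haarAddCircle : Measure UnitAddCircle) := by
  have h := UnitAddCircle.measurePreserving_mk (-(1 / 2))
  have h1 : (-(1 / 2) + 1 : ℝ) = 1 / 2 := by norm_num
  rw [h1] at h
  have h2 : (volume : Measure UnitAddCircle) = AddCircle.haarAddCircle := by
    have := AddCircle.volume_eq_smul_haarAddCircle (T := 1)
    rw [ENNReal.ofReal_one, one_smul] at this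
    exact this
  rw [← h2]
  exact h

lemma mp_P (n : ℕ) : MeasurePreserving (P n) ((volume : Measure (Fin n → ℝ)).restrict (Q n))
    (vol n) := by
  have h := measurePreserving_pi (fun _ : Fin n =>
    (volume : Measure ℝ).restrict (Ioc (-(1 / 2) : ℝ) (1 / 2)))
    (fun _ : Fin n => (AddCircle.haarAddCircle : Measure UnitAddCircle)) (fun _ => mp_one)
  rw [← Measure.restrict_pi_pi] at h
  exact h

lemma norm_coe {x : ℝ} (h : |x| ≤ 1 / 2) : ‖(x : UnitAddCircle)‖ = |x| :=
  (AddCircle.norm_coe_eq_abs_iff (1 : ℝ) one_ne_zero).2 (by rw [abs_one]; exact h)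

lemma measurable_sqd (n : ℕ) (v : Torus n) : Measurable fun y : Torus n => sqd y v := by
  unfold sqd
  fun_prop

lemma measurableSet_near (n : ℕ) (v : Torus n) (r : ℝ) :
    MeasurableSet {y : Torus n | sqd y v < r ^ 2} :=
  measurableSet_lt (measurable_sqd n v) measurable_const

lemma measurableSet_Q (n : ℕ) : MeasurableSet (Q n) :=
  MeasurableSet.univ_pi fun _ => measurableSet_Ioc

/-- The ball as a subset of the coordinate space. -/
def B (n : ℕ) (r : ℝ) : Set (Fin n → ℝ) := {x | ∑ i, x i ^ 2 < r ^ 2}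

lemma preimage_inter (n : ℕ) {r : ℝ} (hr : 0 < r) (hr2 : r ≤ 1 / 2) :
    P n ⁻¹' {y : Torus n | sqd y 0 < r ^ 2} ∩ Q n = B n r := by
  ext x
  constructor
  · rintro ⟨h1, h2⟩
    have hx : ∀ i, |x i| ≤ 1 / 2 := fun i =>
      abs_le.2 ⟨(h2 i (mem_univ i)).1.le, (h2 i (mem_univ i)).2⟩
    have h3 : sqd (P n x) 0 < r ^ 2 := h1
    have h4 : sqd (P n x) 0 = ∑ i, x i ^ 2 := by
      unfold sqd
      refine Finset.sum_congr rfl fun i _ => ?_
      rw [Pi.zero_apply, sub_zero]
      show ‖(x i : UnitAddCircle)‖ ^ 2 = x i ^ 2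
      rw [norm_coe (hx i), sq_abs]
    rw [h4] at h3
    exact h3
  · intro h
    have h0 : ∑ i, x i ^ 2 < r ^ 2 := h
    have hx : ∀ i, |x i| < 1 / 2 := fun i => by
      have h1 : x i ^ 2 ≤ ∑ i, x i ^ 2 :=
        Finset.single_le_sum (f := fun i => x i ^ 2) (fun i _ => sq_nonneg _) (Finset.mem_univ i)
      have h2 : x i ^ 2 < r ^ 2 := h1.trans_lt h0
      exact (abs_lt_of_sq_lt_sq h2 hr.le).trans_le hr2
    refine ⟨?_, fun i _ => ⟨(abs_lt.1 (hx i)).1, (abs_lt.1 (hx i)).2.le⟩⟩
    show sqd (P n x) 0 < r ^ 2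
    have h4 : sqd (P n x) 0 = ∑ i, x i ^ 2 := by
      unfold sqd
      refine Finset.sum_congr rfl fun i _ => ?_
      rw [Pi.zero_apply, sub_zero]
      show ‖(x i : UnitAddCircle)‖ ^ 2 = x i ^ 2
      rw [norm_coe (hx i).le, sq_abs]
    rw [h4]
    exact h0

lemma preimage_ball (n : ℕ) {r : ℝ} (hr : 0 < r) :
    (WithLp.toLp 2 : (Fin n → ℝ) → EuclideanSpace ℝ (Fin n)) ⁻¹'
      Metric.ball (0 : EuclideanSpace ℝ (Fin n)) r = B n r := by
  ext x
  rw [Set.mem_preimage, mem_ball_zero_iff, EuclideanSpace.norm_eq, Real.sqrt_lt' hr]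
  unfold B
  rw [Set.mem_ofPred_eq]
  simp

lemma vol_zero (n : ℕ) {r : ℝ} (hr : 0 < r) (hr2 : r ≤ 1 / 2) :
    vol n {y | sqd y 0 < r ^ 2} = ENNReal.ofReal (ballVol n r) := by
  rw [← (mp_P n).measure_preimage (measurableSet_near n 0 r).nullMeasurableSet,
    Measure.restrict_apply ((mp_P n).measurable (measurableSet_near n 0 r)),
    preimage_inter n hr hr2, ← preimage_ball n hr,
    (PiLp.volume_preserving_toLp (Fin n)).measure_preimage
      Metric.isOpen_ball.measurableSet.nullMeasurableSet]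
  unfold ballVol
  rw [ENNReal.ofReal_toReal]
  exact measure_ball_lt_top.ne

lemma vol_near (n : ℕ) {r : ℝ} (hr : 0 < r) (hr2 : r ≤ 1 / 2) (v : Torus n) :
    vol n {y | sqd y v < r ^ 2} = ENNReal.ofReal (ballVol n r) := by
  rw [← vol_zero n hr hr2]
  have h : {y : Torus n | sqd y v < r ^ 2} = (fun y => y + -v) ⁻¹' {y | sqd y 0 < r ^ 2} := by
    ext y
    simp [sqd, sub_eq_add_neg]
  rw [h]
  unfold vol
  exact measure_preimage_add_right _ _ _

lemma integrand (n : ℕ) (k : Fin n → ℤ) (x : Fin n → ℝ) :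
    (∏ i, fourier (k i) (P n x i) : ℂ).re = Real.cos (2 * Real.pi * ∑ i, (k i : ℝ) * x i) := by
  have h : (∏ i, fourier (k i) (P n x i) : ℂ) =
      Complex.exp (((2 * Real.pi * ∑ i, (k i : ℝ) * x i : ℝ) : ℂ) * Complex.I) := by
    have h1 : ∀ i, (fourier (k i) (P n x i) : ℂ) =
        Complex.exp (((2 * Real.pi * ((k i : ℝ) * x i) : ℝ) : ℂ) * Complex.I) := by
      intro i
      have := fourier_coe_apply (T := (1 : ℝ)) (n := k i) (x := x i)
      refine this.trans ?_
      congr 1
      push_cast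
      ring
    rw [Finset.prod_congr rfl fun i _ => h1 i, ← Complex.exp_sum]
    congr 1
    push_cast
    rw [Finset.mul_sum, Finset.sum_mul]
  rw [h, Complex.exp_ofReal_mul_I_re]

theorem torus : S_TORUS := by
  intro n _ r hr hr2
  refine ⟨fun v => vol_near n hr hr2 v, fun k => ?_⟩
  have hc : Continuous fun y : Torus n => (∏ i, fourier (k i) (y i) : ℂ) := by fun_prop
  have hcP : Measurable (P n) := (mp_P n).measurable
  have h1 : ∫ y in {y : Torus n | sqd y 0 < r ^ 2}, (∏ i, fourier (k i) (y i) : ℂ) ∂(vol n) =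
      ∫ x in B n r, (∏ i, fourier (k i) (P n x i) : ℂ) := by
    rw [← (mp_P n).map_eq, setIntegral_map (measurableSet_near n 0 r)
      hc.aestronglyMeasurable hcP.aemeasurable, Measure.restrict_restrict
      (hcP (measurableSet_near n 0 r)), preimage_inter n hr hr2]
  have hBfin : volume (B n r) < ⊤ := by
    rw [← preimage_ball n hr, (PiLp.volume_preserving_toLp (Fin n)).measure_preimage
      Metric.isOpen_ball.measurableSet.nullMeasurableSet]
    exact measure_ball_lt_top
  have hint : Integrable (fun x : Fin n → ℝ => (∏ i, fourier (k i) (P n x i) : ℂ))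
      (volume.restrict (B n r)) := by
    have : IsFiniteMeasure (volume.restrict (B n r)) := ⟨by
      rw [Measure.restrict_apply_univ]
      exact hBfin⟩
    refine Integrable.of_bound (hc.measurable.comp hcP).aestronglyMeasurable 1
      (Filter.Eventually.of_forall fun x => ?_)
    rw [norm_prod]
    refine Finset.prod_le_one (fun i _ => norm_nonneg _) fun i _ => ?_
    rw [fourier_apply, Circle.norm_coe]
  rw [h1]
  have h2 : (∫ x in B n r, (∏ i, fourier (k i) (P n x i) : ℂ)).re =
      ∫ x in B n r, (∏ i, fourier (k i) (P n x i) : ℂ).re := by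
    have := Complex.reCLM.integral_comp_comm hint
    exact this.symm
  rw [h2]
  have h3 : ∫ x in B n r, (∏ i, fourier (k i) (P n x i) : ℂ).re =
      ∫ x in B n r, Real.cos (2 * Real.pi * ∑ i, (k i : ℝ) * x i) := by
    congr 1
    funext x
    exact integrand n k x
  rw [h3, ← preimage_ball n hr]
  have h4 := (PiLp.volume_preserving_toLp (Fin n)).setIntegral_preimage_emb
    (MeasurableEquiv.toLp 2 (Fin n → ℝ)).measurableEmbedding
    (fun x : EuclideanSpace ℝ (Fin n) =>
      Real.cos (inner ℝ ((2 * Real.pi) • (WithLp.toLp 2 fun i => (k i : ℝ))) x))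
    (Metric.ball (0 : EuclideanSpace ℝ (Fin n)) r)
  rw [← h4]
  congr 1
  funext x
  congr 1
  rw [inner_smul_left]
  simp [PiLp.inner_apply, mul_comm]

end Pool.Agent.N457.HG.Torus
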